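import Pool.Agent.Helper14.TH7.StD

/-!
# Project TH (levels `2·7^n`), module Ld: leading forms of `U`, `V` and the values at the origin

Modulo the relation the rows of the operators are the lists `BUH`, `BVH`, `BOH`; their leading forms are read off from the
certificates by LDG (and OMG for the values at the origin). Model: `Pool/Agent/Helper42/TL7/M_Ld.lean`.
-/

set_option autoImplicit false

namespace Pool.Agent.Helper80.TH7

open Pool.Agent.Helper14.TH7
open Pool.Agent.Helper14.TL7 (TLdg TOmg)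
open Pool.Agent.Helper4.S7 (Tm mulL sclL Gd)
open Pool.Agent.Helper84.S7

/-! ### Good lists -/

private theorem gd_app {L L' : List Tm} (h : ∀ t ∈ L, Gd t) (h' : ∀ t ∈ L', Gd t) :
    ∀ t ∈ L ++ L', Gd t := by
  intro t ht
  rcases List.mem_append.1 ht with h1 | h1
  · exact h t h1
  · exact h' t h1

private theorem gd_scl {L : List Tm} (n : ℤ) (h : ∀ t ∈ L, Gd t) : ∀ t ∈ sclL n L, Gd t := by
  intro t ht
  unfold sclL at ht
  rw [List.mem_map] at ht
  obtain ⟨a, ha, rfl⟩ := ht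
  exact h a ha

private theorem gd_id (c : ℤ) (i f : Fin 3) : ∀ t ∈ id3 c i f, Gd t := by
  intro t ht
  unfold id3 at ht
  split_ifs at ht
  · rw [List.mem_singleton] at ht
    subst ht
    unfold Gd
    simp
  · simp at ht

private theorem gd_mul (hp : S7Opm) {L L' : List Tm} (h : ∀ t ∈ L, Gd t) (h' : ∀ t ∈ L', Gd t) :
    ∀ t ∈ mulL L L', Gd t := ((hp 0 0).1 L L' h h').1

private theorem gd_mm (hp : S7Opm) {A B : Fin 3 → Fin 3 → List Tm} (hA : ∀ i f, ∀ t ∈ A i f, Gd t)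
    (hB : ∀ i f, ∀ t ∈ B i f, Gd t) (i f : Fin 3) : ∀ t ∈ mm3 A B i f, Gd t :=
  gd_app (gd_app (gd_mul hp (hA i 0) (hB 0 f)) (gd_mul hp (hA i 1) (hB 1 f)))
    (gd_mul hp (hA i 2) (hB 2 f))

private theorem gd_sb (hp : S7Opm) {L : Fin 3 → List Tm} {M : List Tm}
    (hL : ∀ f, ∀ t ∈ L f, Gd t) (hM : ∀ t ∈ M, Gd t)
    (hR : ∀ f, ∀ t ∈ relH f, Gd t) (f : Fin 3) : ∀ t ∈ sbH L M f, Gd t :=
  gd_app (hL f) (gd_scl _ (gd_mul hp hM (hR f)))

private theorem gd_rel (hc : TCeG) : ∀ f, ∀ t ∈ relH f, Gd t := fun f => (hc.2.1 f).1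

private theorem gd_BU (ho : S7Opm) (hc : TCeG) (i f : Fin 3) : ∀ t ∈ BUH i f, Gd t := by
  have a3 : ∀ i f, ∀ t ∈ T3H i f, Gd t := fun i f => (hc.1 i f).1
  have a11 : ∀ i f, ∀ t ∈ T11H i f, Gd t := fun i f => (hc.1 i f).2.2.1
  have a23 : ∀ i f, ∀ t ∈ T23H i f, Gd t := fun i f => (hc.1 i f).2.2.2.2.2.2.1
  have a29 : ∀ i f, ∀ t ∈ T29H i f, Gd t := fun i f => (hc.1 i f).2.2.2.2.2.2.2.1
  have a37 : ∀ i f, ∀ t ∈ T37H i f, Gd t := fun i f => (hc.1 i f).2.2.2.2.2.2.2.2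
  exact gd_sb ho (fun f => gd_app (gd_app (gd_app (gd_app (gd_app (gd_id _ i f)
    (gd_scl _ (a11 i f))) (gd_scl _ (a23 i f))) (gd_scl _ (a29 i f))) (gd_scl _ (a37 i f)))
    (gd_scl _ (gd_mm ho a3 a3 i f))) (hc.2.1 i).2.1 (gd_rel hc) f

private theorem gd_BV (ho : S7Opm) (hc : TCeG) (i f : Fin 3) : ∀ t ∈ BVH i f, Gd t := by
  have a3 : ∀ i f, ∀ t ∈ T3H i f, Gd t := fun i f => (hc.1 i f).1
  have a5 : ∀ i f, ∀ t ∈ T5H i f, Gd t := fun i f => (hc.1 i f).2.1
  have a11 : ∀ i f, ∀ t ∈ T11H i f, Gd t := fun i f => (hc.1 i f).2.2.1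
  have a13 : ∀ i f, ∀ t ∈ T13H i f, Gd t := fun i f => (hc.1 i f).2.2.2.1
  have a17 : ∀ i f, ∀ t ∈ T17H i f, Gd t := fun i f => (hc.1 i f).2.2.2.2.1
  have a19 : ∀ i f, ∀ t ∈ T19H i f, Gd t := fun i f => (hc.1 i f).2.2.2.2.2.1
  have a23 : ∀ i f, ∀ t ∈ T23H i f, Gd t := fun i f => (hc.1 i f).2.2.2.2.2.2.1
  have a29 : ∀ i f, ∀ t ∈ T29H i f, Gd t := fun i f => (hc.1 i f).2.2.2.2.2.2.2.1
  have a37 : ∀ i f, ∀ t ∈ T37H i f, Gd t := fun i f => (hc.1 i f).2.2.2.2.2.2.2.2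
  have aa : ∀ i f, ∀ t ∈ TaH i f, Gd t := fun i f =>
    gd_app (gd_app (a3 i f) (gd_scl _ (a5 i f))) (gd_scl _ (a13 i f))
  have ab : ∀ i f, ∀ t ∈ TbH i f, Gd t := fun i f =>
    gd_app (gd_app (gd_app (gd_scl _ (a5 i f)) (gd_scl _ (a13 i f))) (gd_scl _ (a17 i f)))
      (gd_scl _ (a19 i f))
  exact gd_sb ho (fun f => gd_app (gd_app (gd_app (gd_app (gd_app (gd_scl _ (a11 i f))
    (gd_scl _ (a23 i f))) (gd_scl _ (a29 i f))) (a37 i f)) (gd_mm ho a3 aa i f))
    (gd_mm ho a5 ab i f)) (hc.2.1 i).2.2 (gd_rel hc) f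

private theorem gd_BO (ho : S7Opm) (hc : TCeG) (c : Fin 6) (f : Fin 3) : ∀ t ∈ BOH c f, Gd t := by
  have a3 : ∀ i f, ∀ t ∈ T3H i f, Gd t := fun i f => (hc.1 i f).1
  have a5 : ∀ i f, ∀ t ∈ T5H i f, Gd t := fun i f => (hc.1 i f).2.1
  have a11 : ∀ i f, ∀ t ∈ T11H i f, Gd t := fun i f => (hc.1 i f).2.2.1
  have a13 : ∀ i f, ∀ t ∈ T13H i f, Gd t := fun i f => (hc.1 i f).2.2.2.1
  have a17 : ∀ i f, ∀ t ∈ T17H i f, Gd t := fun i f => (hc.1 i f).2.2.2.2.1
  have a19 : ∀ i f, ∀ t ∈ T19H i f, Gd t := fun i f => (hc.1 i f).2.2.2.2.2.1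
  have a23 : ∀ i f, ∀ t ∈ T23H i f, Gd t := fun i f => (hc.1 i f).2.2.2.2.2.2.1
  have a29 : ∀ i f, ∀ t ∈ T29H i f, Gd t := fun i f => (hc.1 i f).2.2.2.2.2.2.2.1
  have a37 : ∀ i f, ∀ t ∈ T37H i f, Gd t := fun i f => (hc.1 i f).2.2.2.2.2.2.2.2
  refine gd_sb ho (fun f => ?_) (hc.2.2 c) (gd_rel hc) f
  unfold OLH
  split_ifs
  · exact gd_id _ 0 f
  · exact gd_app (gd_id _ 0 f) (gd_scl _ (a3 0 f))
  · exact gd_app (gd_app (gd_id _ 0 f) (gd_scl _ (a3 0 f))) (gd_scl _ (a5 0 f))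
  · exact gd_app (gd_app (gd_app (gd_app (gd_app (gd_id _ 0 f) (gd_scl _ (a3 0 f)))
      (gd_scl _ (a5 0 f))) (gd_scl _ (a11 0 f))) (a13 0 f)) (gd_scl _ (a17 0 f))
  · exact gd_app (gd_app (gd_app (gd_scl _ (a3 0 f)) (gd_scl _ (a13 0 f))) (gd_scl _ (a17 0 f)))
      (gd_scl _ (gd_mm ho a3 a5 0 f))
  · exact gd_app (gd_app (gd_app (gd_app (gd_app (gd_app (gd_app (gd_app (gd_app (gd_id _ 0 f)
      (a5 0 f)) (gd_scl _ (a13 0 f))) (gd_scl _ (a17 0 f))) (a19 0 f)) (gd_scl _ (a23 0 f)))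
      (gd_scl _ (a29 0 f))) (gd_scl _ (a37 0 f))) (gd_scl _ (gd_mm ho a3 a3 0 f)))
      (gd_scl _ (gd_mm ho a3 a5 0 f))

/-! ### Rows modulo the relation -/

section

variable {r s : ℕ}

private theorem row (ho : S7Opm) (hr : TRll) (L : Fin 3 → List Tm) (M : List Tm)
    (hM : ∀ t ∈ M, Gd t) (hR : ∀ f, ∀ t ∈ relH f, Gd t)
    (F : Fin 3 → Fn7 (7 ^ r) (7 ^ s)) (hF : RelH F) :
    ∑ f : Fin 3, opL (L f) (F f) = ∑ f : Fin 3, opL (sbH L M f) (F f) := by
  obtain ⟨p1, p2, p3, -⟩ := ho r s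
  have h := (hr r s F).1 hF
  have e : ∀ f : Fin 3, opL (sbH L M f) (F f) = opL (L f) (F f) +
      (((-1 : ℤ)) : ZMod 7) • opL M (opL (relH f) (F f)) := by
    intro f
    unfold sbH
    rw [p3, p2, (p1 _ _ hM (hR f)).2]
    rfl
  rw [Finset.sum_congr rfl fun f _ => e f, Finset.sum_add_distrib, ← Finset.smul_sum,
    ← map_sum, h, map_zero, smul_zero, add_zero]

/-! ### Leading forms -/

private theorem leadU (hg : TLdg) (hu : TCeU) (i f : Fin 3) (hG : ∀ t ∈ BUH i f, Gd t) :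
    Lw ((opL (BUH i f) : Module.End (ZMod 7) (Fn7 (7 ^ r) (7 ^ s))) - if i = f then QoH else 0) 3 := by
  have h := hg r s (BUH i f) 2 (fun k => if i = f ∧ k = 1 then 1 else 0) (by norm_num) hG
    (fun w t ht hw => by
      have h1 := hu i f w t ht (by omega)
      rwa [if_neg, sub_zero] at h1
      rintro ⟨-, -, h2⟩
      rw [h2] at hw
      simp at hw)
    (fun w t ht hw => by
      have h1 := hu i f w t ht (by omega)
      have e : (if w = 0 ∧ t.2.1 = 0 then (if i = f ∧ t.1 = 1 then 1 else 0) else 0 : ℤ) =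
          if i = f ∧ w = 0 ∧ t = (1, 0, 1) then 1 else 0 := by
        obtain ⟨a, k, b⟩ := t
        simp only at hw ⊢
        have hk : k = 0 := by omega
        subst hk
        by_cases hi : i = f
        · by_cases hw0 : w = 0
          · by_cases ha : a = 1
            · have hb : b = 1 := by omega
              subst ha hb
              simp [hi, hw0]
            · rw [if_pos ⟨hw0, rfl⟩, if_neg (fun h => ha h.2), if_neg]
              rintro ⟨-, -, h2⟩
              exact ha (Prod.ext_iff.1 h2).1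
          · rw [if_neg (fun h => hw0 h.1), if_neg (fun h => hw0 h.2.1)]
        · rw [if_neg (fun h : i = f ∧ a = 1 => hi h.1), if_neg (fun h : i = f ∧ _ => hi h.1)]
          exact ite_self _
      rw [← e] at h1
      exact h1)
  have e3 : ((2 : ℕ) : ℤ) + 1 = 3 := by norm_num
  rw [e3] at h
  have e4 : (∑ k ∈ Finset.range (2 + 1), (((fun k : ℕ => if i = f ∧ k = 1 then (1 : ℤ) else 0) k : ℤ) : ZMod 7) •
      (dX ^ (2 - k) * dY ^ k : Module.End (ZMod 7) (Fn7 (7 ^ r) (7 ^ s)))) = if i = f then QoH else 0 := by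
    rw [Finset.sum_range_succ, Finset.sum_range_succ, Finset.sum_range_succ, Finset.sum_range_zero]
    by_cases hi : i = f
    · unfold QoH
      simp [hi]
    · simp [hi]
  rw [e4] at h
  exact h

private theorem leadV (hg : TLdg) (hv : ∀ i f, TCeV i f) (i f : Fin 3) (hG : ∀ t ∈ BVH i f, Gd t) :
    Lw ((opL (BVH i f) : Module.End (ZMod 7) (Fn7 (7 ^ r) (7 ^ s))) - if i = f then LoH else 0) 9 := by
  have h := hg r s (BVH i f) 8
    (fun k => if i = f ∧ (k = 1 ∨ k = 7) then 1 else if i = f ∧ k = 4 then 3 else 0) (by norm_num) hG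
    (fun w t ht hw => by
      have h1 := hv i f w t ht
      rwa [if_neg, if_neg, sub_zero] at h1
      · rintro ⟨-, -, h2⟩
        rw [h2] at hw
        simp at hw
      · rintro ⟨-, -, h2 | h2⟩
        · rw [h2] at hw
          simp at hw
        · rw [h2] at hw
          simp at hw)
    (fun w t ht hw => by
      have h1 := hv i f w t ht
      have e : (if w = 0 ∧ t.2.1 = 0 then
            (if i = f ∧ (t.1 = 1 ∨ t.1 = 7) then 1 else if i = f ∧ t.1 = 4 then 3 else 0) else 0 : ℤ) =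
          if i = f ∧ w = 0 ∧ (t = (1, 0, 7) ∨ t = (7, 0, 1)) then 1
            else if i = f ∧ w = 0 ∧ t = (4, 0, 4) then 3 else 0 := by
        obtain ⟨a, k, b⟩ := t
        simp only at hw ⊢
        by_cases hi : i = f
        · by_cases hw0 : w = 0
          · by_cases hk : k = 0
            · subst hk
              by_cases ha : a = 1
              · have hb : b = 7 := by omega
                subst ha hb
                simp [hi, hw0]
              · by_cases ha7 : a = 7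
                · have hb : b = 1 := by omega
                  subst ha7 hb
                  simp [hi, hw0]
                · by_cases ha4 : a = 4
                  · have hb : b = 4 := by omega
                    subst ha4 hb
                    simp [hi, hw0]
                  · rw [if_pos ⟨hw0, rfl⟩, if_neg, if_neg, if_neg, if_neg]
                    · rintro ⟨-, -, h2⟩
                      exact ha4 (Prod.ext_iff.1 h2).1
                    · rintro ⟨-, -, h2 | h2⟩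
                      · exact ha (Prod.ext_iff.1 h2).1
                      · exact ha7 (Prod.ext_iff.1 h2).1
                    · rintro ⟨-, h2⟩
                      exact ha4 h2
                    · rintro ⟨-, h2 | h2⟩
                      · exact ha h2
                      · exact ha7 h2
            · rw [if_neg (fun h => hk h.2), if_neg, if_neg]
              · rintro ⟨-, -, h2⟩
                exact hk (Prod.ext_iff.1 (Prod.ext_iff.1 h2).2).1
              · rintro ⟨-, -, h2 | h2⟩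
                · exact hk (Prod.ext_iff.1 (Prod.ext_iff.1 h2).2).1
                · exact hk (Prod.ext_iff.1 (Prod.ext_iff.1 h2).2).1
          · rw [if_neg (fun h => hw0 h.1), if_neg (fun h => hw0 h.2.1), if_neg (fun h => hw0 h.2.1)]
        · rw [if_neg (fun h : i = f ∧ (a = 1 ∨ a = 7) => hi h.1), if_neg (fun h : i = f ∧ a = 4 => hi h.1),
            if_neg (fun h : i = f ∧ w = 0 ∧ ((a, k, b) = (1, 0, 7) ∨ (a, k, b) = (7, 0, 1)) => hi h.1),
            if_neg (fun h : i = f ∧ w = 0 ∧ (a, k, b) = (4, 0, 4) => hi h.1)]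
          exact ite_self _
      rw [← e] at h1
      exact h1)
  have e3 : ((8 : ℕ) : ℤ) + 1 = 9 := by norm_num
  rw [e3] at h
  have e4 : (∑ k ∈ Finset.range (8 + 1), (((fun k : ℕ => if i = f ∧ (k = 1 ∨ k = 7) then (1 : ℤ)
        else if i = f ∧ k = 4 then 3 else 0) k : ℤ) : ZMod 7) •
      (dX ^ (8 - k) * dY ^ k : Module.End (ZMod 7) (Fn7 (7 ^ r) (7 ^ s)))) = if i = f then LoH else 0 := by
    by_cases hi : i = f
    · unfold LoH
      simp [hi, Finset.sum_range_succ]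
    · simp [hi]
  rw [e4] at h
  exact h

private theorem fin_sum (A : Fin 3 → Fn7 (7 ^ r) (7 ^ s)) (Q : Module.End (ZMod 7) (Fn7 (7 ^ r) (7 ^ s)))
    (F : Fin 3 → Fn7 (7 ^ r) (7 ^ s)) (d : ℤ) (i : Fin 3)
    (h : ∀ f, A f - (if i = f then Q else 0 : Module.End (ZMod 7) (Fn7 (7 ^ r) (7 ^ s))) (F f) ∈
      (Wd7 d : Submodule (ZMod 7) (Fn7 (7 ^ r) (7 ^ s)))) :
    (∑ f, A f) - Q (F i) ∈ (Wd7 d : Submodule (ZMod 7) (Fn7 (7 ^ r) (7 ^ s))) := by
  have h3 := Submodule.sum_mem (Wd7 d : Submodule (ZMod 7) (Fn7 (7 ^ r) (7 ^ s)))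
    (fun f (_ : f ∈ (Finset.univ : Finset (Fin 3))) => h f)
  have e : ∑ f, (if i = f then Q else 0 : Module.End (ZMod 7) (Fn7 (7 ^ r) (7 ^ s))) (F f) = Q (F i) := by
    rw [Finset.sum_eq_single i (fun f _ hf => by rw [if_neg (Ne.symm hf)]; rfl)
      (fun h => absurd (Finset.mem_univ i) h), if_pos rfl]
  rw [Finset.sum_sub_distrib, e] at h3
  exact h3

end

set_option linter.unusedVariables false in
/-- LDU. -/
theorem hLdU (hl : S7Low0) (ho : S7Opm) (hr : TRll) (hg : Pool.Agent.Helper14.TL7.TLdg) (hc : TCeG)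
    (hu : TCeU) : TLdU := by
  intro r s d F hR hF i
  have e := row ho hr (ULH i) (MUH i) (hc.2.1 i).2.1 (gd_rel hc) F hR
  rw [e]
  exact fin_sum (fun f => opL (BUH i f) (F f)) QoH F (d - 3) i
    (fun f => leadU hg hu i f (gd_BU ho hc i f) d (F f) (hF f))

set_option linter.unusedVariables false in
/-- LDV. -/
theorem hLdV (hl : S7Low0) (ho : S7Opm) (hr : TRll) (hg : Pool.Agent.Helper14.TL7.TLdg) (hc : TCeG)
    (hv : ∀ i f, TCeV i f) : TLdV := by
  intro r s d F hR hF i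
  have e := row ho hr (VLH i) (MVH i) (hc.2.1 i).2.2 (gd_rel hc) F hR
  rw [e]
  exact fin_sum (fun f => opL (BVH i f) (F f)) LoH F (d - 9) i
    (fun f => leadV hg hv i f (gd_BV ho hc i f) d (F f) (hF f))

set_option linter.unusedVariables false in
/-- OM. -/
theorem hOm (hl : S7Low0) (ho : S7Opm) (hr : TRll) (hg : Pool.Agent.Helper14.TL7.TOmg) (hc : TCeG)
    (hu : TCeO) : TOm := by
  intro r s c F hR hF
  have e := row ho hr (OLH c) (MOH c) (hc.2.2 c) (gd_rel hc) F hR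
  rw [e]
  have hn : nOH c.val ≤ 8 := by
    unfold nOH aaH abH
    split_ifs <;> norm_num
  have h : ∀ f : Fin 3, (opL (BOH c f) (F f)) 0 0 = (MoH c.val f.val (F f)) 0 0 := by
    intro f
    have h0 := hg r s (BOH c f) (nOH c.val) (qOH c.val f.val) hn (gd_BO ho hc c f)
      (fun t ht hk hw => hu c f t ht hk hw) (F f) (hF f)
    rw [h0]
    unfold MoH
    rw [LinearMap.sum_apply, Finset.sum_apply, Finset.sum_apply]
    rfl
  rw [Finset.sum_apply, Finset.sum_apply]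
  exact Finset.sum_congr rfl fun f _ => h f

end Pool.Agent.Helper80.TH7
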